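import Mathlib
import Pool.Agent.H38R3.QFinal

namespace Pool.Agent.Results.MP_8ff4bd_gt.MartinAxiomFinest

open Cardinal H38Q

/-- Under Martin's axiom for σ-centred posets and `ℵ₁` dense sets, the direct sums of `ℵ₁` copies of
`ℤ(m)` and of `ℤ(n)`, each with its finest `ℵ₀`-bounded group topology `𝔊`, are homeomorphic for all
`m, n ≥ 2`; the topology `frakG K` used here is the finest element of the set `OmegaTops K` of
all `ℵ₀`-bounded group topologies on `K`. -/
theorem result :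
    MASigmaCentered →
      ∀ ι : Type, #ι = ℵ₁ → ∀ m n : ℕ, 2 ≤ m → 2 ≤ n →
        IsLeast (OmegaTops (ι →₀ ZMod m)) (frakG (ι →₀ ZMod m)) ∧
        IsLeast (OmegaTops (ι →₀ ZMod n)) (frakG (ι →₀ ZMod n)) ∧
        Nonempty (@Homeomorph (ι →₀ ZMod m) (ι →₀ ZMod n)
          (frakG (ι →₀ ZMod m)) (frakG (ι →₀ ZMod n))) :=
  fun hMA _ hι _ _ hm hn => ⟨isLeast_frakG _, isLeast_frakG _, homeo_sumsW hMA hι hm hn⟩

end Pool.Agent.Results.MP_8ff4bd_gt.MartinAxiomFinest
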