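import Mathlib
import Pool.Agent.H38R3.QBase

namespace Pool.Agent.Results.MP_8ff4bd_gt.QSetHomeomorphic

open Cardinal H38Q

/-- If there is a Q-set of reals of cardinality `ℵ₁` (as under Martin's axiom and `2^ℵ₀ > ℵ₁`), then
the direct sums of `ℵ₁` copies of `ℤ(2)` and of `ℤ(3)` with their pro-countable topologies are
homeomorphic. More generally, for every infinite Q-set `D`, every index set of the cardinality of
`D` and all `m, n ≥ 2`, the direct sums of copies of `ℤ(m)` and of `ℤ(n)` with the pro-countable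
topologies are homeomorphic. -/
theorem result :
    ∀ D : Set (ℕ → Bool), D.Infinite → IsQSet D →
      ∀ ι : Type, #ι = #D → ∀ m n : ℕ, 2 ≤ m → 2 ≤ n →
        Nonempty (@Homeomorph (ι →₀ ZMod m) (ι →₀ ZMod n) (rho (ι →₀ ZMod m)) (rho (ι →₀ ZMod n))) :=
  fun _ hDi hD _ hι _ _ hm hn => homeo_sums hD hDi hι hm hn

end Pool.Agent.Results.MP_8ff4bd_gt.QSetHomeomorphic
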